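import Pool.Agent.VM.StmtsH

/-! VM, module VBO: Weyl sums with a small leading coefficient. -/

set_option autoImplicit false
set_option linter.unusedSectionVars false

namespace Pool.Agent.VM.H78

open Pool.Agent.Helper69_Weyl (ee W norm_ee conj_ee)

/-- the difference of a power -/
theorem hk_succ (k : ℕ) (x : ℝ) : (x + 1) ^ (k + 1) - x ^ (k + 1) =
    (x + 1) * ((x + 1) ^ k - x ^ k) + x ^ k := by
  ring

theorem hk_le (k : ℕ) {x : ℝ} (hx : 1 ≤ x) :
    (x + 1) ^ (k + 1) - x ^ (k + 1) ≤ (2 ^ (k + 1) - 1) * x ^ k := by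
  induction k with
  | zero => norm_num
  | succ k ih =>
    rw [hk_succ]
    have h0 : 0 ≤ (x + 1) ^ (k + 1) - x ^ (k + 1) := by
      rw [sub_nonneg]
      exact pow_le_pow_left₀ (by linarith) (by linarith) _
    have h1 : (x + 1) * ((x + 1) ^ (k + 1) - x ^ (k + 1)) ≤
        (2 * x) * ((2 ^ (k + 1) - 1) * x ^ k) :=
      mul_le_mul (by linarith) ih h0 (by linarith)
    have h2 : (2 * x) * ((2 ^ (k + 1) - 1) * x ^ k) + x ^ (k + 1) =
        (2 ^ (k + 1 + 1) - 1) * x ^ (k + 1) := by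
      rw [pow_succ 2 (k + 1), pow_succ x k]
      ring
    linarith

theorem hk_ge (k : ℕ) {x y : ℝ} (hy : 0 ≤ y) (hxy : y ≤ x) :
    ((k : ℝ) + 2) * (x - y) ^ (k + 1) ≤
      ((x + 1) ^ (k + 2) - x ^ (k + 2)) - ((y + 1) ^ (k + 2) - y ^ (k + 2)) := by
  induction k with
  | zero =>
    norm_num
    nlinarith
  | succ k ih =>
    have e1 := hk_succ (k + 2) x
    have e2 := hk_succ (k + 2) y
    rw [show k + 1 + 2 = k + 2 + 1 by ring, e1, e2]
    have h1 : (x - y) ^ (k + 2) + y ^ (k + 2) ≤ x ^ (k + 2) := by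
      have := pow_add_pow_le (sub_nonneg.2 hxy) hy (n := k + 2) (by omega)
      rwa [sub_add_cancel] at this
    have h2 : 0 ≤ (y + 1) ^ (k + 2) - y ^ (k + 2) := by
      rw [sub_nonneg]
      exact pow_le_pow_left₀ hy (by linarith) _
    have hd : 0 ≤ x - y := sub_nonneg.2 hxy
    have h3 : (x - y) * (((k : ℝ) + 2) * (x - y) ^ (k + 1)) ≤
        (x + 1) * (((x + 1) ^ (k + 2) - x ^ (k + 2)) - ((y + 1) ^ (k + 2) - y ^ (k + 2))) := by
      apply mul_le_mul (by linarith) ih (by positivity) (by linarith)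
    have h4 : 0 ≤ (x - y) * ((y + 1) ^ (k + 2) - y ^ (k + 2)) := mul_nonneg hd h2
    have h5 : (((k + 1 : ℕ) : ℝ) + 2) * (x - y) ^ (k + 1 + 1) =
        (x - y) * (((k : ℝ) + 2) * (x - y) ^ (k + 1)) + (x - y) ^ (k + 2) := by
      push_cast
      ring
    rw [h5]
    nlinarith

/-- order convex finite sets of integers are intervals -/
theorem ordc (s : Finset ℤ) (h : ∀ x ∈ s, ∀ y ∈ s, ∀ z, x ≤ z → z ≤ y → z ∈ s)
    (hne : s.Nonempty) : s = Finset.Icc (s.min' hne) (s.max' hne) := by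
  ext z
  rw [Finset.mem_Icc]
  constructor
  · intro hz
    exact ⟨Finset.min'_le s z hz, Finset.le_max' s z hz⟩
  · rintro ⟨h1, h2⟩
    exact h _ (Finset.min'_mem s hne) _ (Finset.max'_mem s hne) z h1 h2

theorem W_int (k N : ℕ) (β η : ℝ) :
    W k N β η = ∑ n ∈ Finset.Icc (1 : ℤ) (N : ℤ), ee (β * (n : ℝ) ^ k + η * (n : ℝ)) := by
  unfold W
  have h1 : Finset.Icc (1 : ℤ) (N : ℤ) = (Finset.Icc 1 N).image (Nat.cast : ℕ → ℤ) := by
    ext z
    rw [Finset.mem_image, Finset.mem_Icc]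
    constructor
    · rintro ⟨a, b⟩
      exact ⟨z.toNat, by rw [Finset.mem_Icc]; omega, by omega⟩
    · rintro ⟨n, hn, rfl⟩
      rw [Finset.mem_Icc] at hn
      omega
  rw [h1, Finset.sum_image (fun a _ b _ h => by exact_mod_cast h)]
  simp

theorem norm_W_neg (k N : ℕ) (β η : ℝ) : ‖W k N (-β) (-η)‖ = ‖W k N β η‖ := by
  have h1 : W k N (-β) (-η) = (starRingEnd ℂ) (W k N β η) := by
    unfold W
    rw [map_sum]
    apply Finset.sum_congr rfl
    intro n _
    rw [conj_ee]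
    congr 1
    ring
  rw [h1, RCLike.norm_conj]

theorem norm_W_le (k N : ℕ) (β η : ℝ) : ‖W k N β η‖ ≤ N := by
  unfold W
  refine (norm_sum_le _ _).trans ?_
  simp [norm_ee]

/-- the main case -/
theorem vbo_main (j : ℕ) (kul : KulStmt) {N : ℕ} {β η L : ℝ} (hN : 1 ≤ N) (hβ : 0 < β)
    (hT : β * (N : ℝ) ^ (j + 2) ≤ N) (hL : 2 ≤ L) (hβL : β * L ^ (j + 2) = 1) :
    ‖W (j + 2) N β η‖ ≤ (2 ^ (j + 2) + 2) * (5 * L) := by
  classical
  have hN0 : (0 : ℝ) < N := by exact_mod_cast hN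
  have hN1 : (1 : ℝ) ≤ N := by exact_mod_cast hN
  have hL0 : 0 < L := by linarith
  obtain ⟨D, hD⟩ : ∃ D : ℤ → ℝ, D = fun n : ℤ => β * (((n : ℝ) + 1) ^ (j + 2) -
    (n : ℝ) ^ (j + 2)) + η := ⟨_, rfl⟩
  obtain ⟨δ, hδ⟩ : ∃ δ, δ = 1 / L := ⟨_, rfl⟩
  have hδ0 : 0 < δ := by rw [hδ]; positivity
  have hδ2 : δ ≤ 1 / 2 := by
    rw [hδ]
    exact one_div_le_one_div_of_le (by norm_num) hL
  have hgrow : ∀ m n : ℤ, 1 ≤ m → m ≤ n →
      β * (((j : ℝ) + 2) * ((n : ℝ) - m) ^ (j + 1)) ≤ D n - D m := by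
    intro m n h1 h2
    have h3 : (0 : ℝ) ≤ m := by exact_mod_cast (by omega : (0 : ℤ) ≤ m)
    have h4 : (m : ℝ) ≤ n := by exact_mod_cast h2
    have h5 := mul_le_mul_of_nonneg_left (hk_ge j h3 h4) hβ.le
    rw [hD]
    simp only
    linarith
  have hmono : ∀ m n : ℤ, 1 ≤ m → m ≤ n → D m ≤ D n := by
    intro m n h1 h2
    have h4 : (m : ℝ) ≤ n := by exact_mod_cast h2
    have h5 : 0 ≤ (n : ℝ) - m := by linarith
    have h6 := hgrow m n h1 h2
    have h7 : 0 ≤ β * (((j : ℝ) + 2) * ((n : ℝ) - m) ^ (j + 1)) := by positivity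
    linarith
  have hrange : D N - D 1 ≤ 2 ^ (j + 2) := by
    have h1 := hk_le (j + 1) hN1
    have h2 : β * (N : ℝ) ^ (j + 1) ≤ 1 := by
      have h3 : (β * (N : ℝ) ^ (j + 1)) * N ≤ 1 * N := by
        calc (β * (N : ℝ) ^ (j + 1)) * N = β * (N : ℝ) ^ (j + 2) := by ring
          _ ≤ N := hT
          _ = _ := (one_mul _).symm
      exact le_of_mul_le_mul_right h3 hN0
    have h4 : (0 : ℝ) ≤ (1 + 1) ^ (j + 2) - 1 ^ (j + 2) := by
      rw [sub_nonneg]
      exact pow_le_pow_left₀ (by norm_num) (by norm_num) _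
    have h5 : (0 : ℝ) < 2 ^ (j + 2) := by positivity
    rw [hD]
    simp only
    push_cast
    have h6 : β * (((N : ℝ) + 1) ^ (j + 2) - (N : ℝ) ^ (j + 2)) ≤
        β * ((2 ^ (j + 2) - 1) * (N : ℝ) ^ (j + 1)) := mul_le_mul_of_nonneg_left h1 hβ.le
    have h7 : 0 ≤ β * ((1 + 1) ^ (j + 2) - 1 ^ (j + 2)) := mul_nonneg hβ.le h4
    have h8 : β * ((2 ^ (j + 2) - 1) * (N : ℝ) ^ (j + 1)) =
        (2 ^ (j + 2) - 1) * (β * (N : ℝ) ^ (j + 1)) := by ring
    have h9 : (1 : ℝ) ≤ 2 ^ (j + 2) := one_le_pow₀ (by norm_num)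
    have h10 : (2 ^ (j + 2) - 1) * (β * (N : ℝ) ^ (j + 1)) ≤ (2 ^ (j + 2) - 1) * 1 :=
      mul_le_mul_of_nonneg_left h2 (by linarith)
    linarith
  rw [W_int]
  obtain ⟨f, hf⟩ : ∃ f : ℤ → ℂ, f = fun n : ℤ => ee (β * (n : ℝ) ^ (j + 2) + η * (n : ℝ)) := ⟨_, rfl⟩
  have hf1 : ∀ n, ‖f n‖ = 1 := by
    intro n
    rw [hf]
    exact norm_ee _
  obtain ⟨Z, hZ⟩ : ∃ Z : Finset ℤ, Z = Finset.Icc ⌊D 1 + δ⌋ ⌊D N + δ⌋ := ⟨_, rfl⟩
  have hmaps : ∀ n ∈ Finset.Icc (1 : ℤ) (N : ℤ), ⌊D n + δ⌋ ∈ Z := by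
    intro n hn
    rw [Finset.mem_Icc] at hn
    rw [hZ, Finset.mem_Icc]
    constructor
    · apply Int.floor_le_floor
      linarith [hmono 1 n le_rfl hn.1]
    · apply Int.floor_le_floor
      linarith [hmono n N hn.1 hn.2]
  have hsum : ∑ n ∈ Finset.Icc (1 : ℤ) (N : ℤ), f n =
      ∑ z ∈ Z, ∑ n ∈ (Finset.Icc (1 : ℤ) (N : ℤ)).filter (fun n => ⌊D n + δ⌋ = z), f n :=
    (Finset.sum_fiberwise_of_maps_to hmaps f).symm
  have hcardZ : (Z.card : ℝ) ≤ 2 ^ (j + 2) + 2 := by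
    rw [hZ, Int.card_Icc]
    have h1 : (⌊D N + δ⌋ : ℝ) ≤ D N + δ := Int.floor_le _
    have h2 : D 1 + δ - 1 < (⌊D 1 + δ⌋ : ℝ) := Int.sub_one_lt_floor _
    have h3 : ⌊D 1 + δ⌋ ≤ ⌊D N + δ⌋ := by
      apply Int.floor_le_floor
      linarith [hmono 1 N le_rfl (by exact_mod_cast hN)]
    have h4 : ((⌊D N + δ⌋ + 1 - ⌊D 1 + δ⌋).toNat : ℝ) = (⌊D N + δ⌋ : ℝ) + 1 - ⌊D 1 + δ⌋ := by
      have : ((⌊D N + δ⌋ + 1 - ⌊D 1 + δ⌋).toNat : ℤ) = ⌊D N + δ⌋ + 1 - ⌊D 1 + δ⌋ :=
        Int.toNat_of_nonneg (by omega)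
      exact_mod_cast this
    rw [h4]
    linarith
  -- the two parts of a fibre
  have hpart : ∀ z : ℤ,
      ‖∑ n ∈ (Finset.Icc (1 : ℤ) (N : ℤ)).filter (fun n => ⌊D n + δ⌋ = z), f n‖ ≤ 5 * L := by
    intro z
    rw [← Finset.sum_filter_add_sum_filter_not _ (fun n => D n < z + δ)]
    obtain ⟨A, hA⟩ : ∃ A, A = ((Finset.Icc (1 : ℤ) (N : ℤ)).filter
      (fun n => ⌊D n + δ⌋ = z)).filter (fun n => D n < z + δ) := ⟨_, rfl⟩
    obtain ⟨B, hB⟩ : ∃ B, B = ((Finset.Icc (1 : ℤ) (N : ℤ)).filter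
      (fun n => ⌊D n + δ⌋ = z)).filter (fun n => ¬ D n < z + δ) := ⟨_, rfl⟩
    rw [← hA, ← hB]
    have hmemA : ∀ n, n ∈ A ↔ (1 ≤ n ∧ n ≤ (N : ℤ)) ∧ (z : ℝ) - δ ≤ D n ∧ D n < z + δ := by
      intro n
      rw [hA, Finset.mem_filter, Finset.mem_filter, Finset.mem_Icc, Int.floor_eq_iff]
      constructor
      · rintro ⟨⟨h1, h2, h3⟩, h4⟩
        exact ⟨h1, by linarith, h4⟩
      · rintro ⟨h1, h2, h3⟩
        exact ⟨⟨h1, by linarith, by linarith⟩, h3⟩
    have hmemB : ∀ n, n ∈ B ↔ (1 ≤ n ∧ n ≤ (N : ℤ)) ∧ (z : ℝ) + δ ≤ D n ∧ D n < z + 1 - δ := by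
      intro n
      rw [hB, Finset.mem_filter, Finset.mem_filter, Finset.mem_Icc, Int.floor_eq_iff, not_lt]
      constructor
      · rintro ⟨⟨h1, h2, h3⟩, h4⟩
        exact ⟨h1, h4, by linarith⟩
      · rintro ⟨h1, h2, h3⟩
        exact ⟨⟨h1, by linarith, by linarith⟩, h2⟩
    have hAn : ‖∑ n ∈ A, f n‖ ≤ 2 * L := by
      refine (norm_sum_le _ _).trans ?_
      rw [Finset.sum_congr rfl (fun n _ => hf1 n), Finset.sum_const, nsmul_eq_mul, mul_one]
      rcases A.eq_empty_or_nonempty with h0 | hne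
      · rw [h0, Finset.card_empty]
        push_cast
        linarith
      · have hI := ordc A (by
          intro x hx y hy w h1 h2
          rw [hmemA] at hx hy ⊢
          refine ⟨⟨by omega, by omega⟩, ?_, ?_⟩
          · linarith [hmono x w hx.1.1 h1, hx.2.1]
          · linarith [hmono w y (by omega) h2, hy.2.2]) hne
        have h1 := (hmemA _).1 (Finset.min'_mem A hne)
        have h2 := (hmemA _).1 (Finset.max'_mem A hne)
        obtain ⟨lo, hlo⟩ : ∃ lo, lo = A.min' hne := ⟨_, rfl⟩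
        obtain ⟨hi, hhi⟩ : ∃ hi, hi = A.max' hne := ⟨_, rfl⟩
        have hle : lo ≤ hi := by
          rw [hlo, hhi]
          exact Finset.min'_le_max' A hne
        rw [← hlo] at h1
        rw [← hhi] at h2
        have hle' : (lo : ℝ) ≤ hi := by exact_mod_cast hle
        have h3 : (A.card : ℝ) = (hi : ℝ) - lo + 1 := by
          rw [hI, Int.card_Icc, ← hlo, ← hhi]
          have : ((hi + 1 - lo).toNat : ℤ) = hi + 1 - lo := Int.toNat_of_nonneg (by omega)
          have h4 : ((hi + 1 - lo).toNat : ℝ) = (hi : ℝ) + 1 - lo := by exact_mod_cast this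
          rw [h4]
          ring
        rw [h3]
        have h5 : (hi : ℝ) - lo ≤ L := by
          by_contra hlt
          push Not at hlt
          have h6 := hgrow lo hi h1.1.1 hle
          have h7 : D hi - D lo < 2 * δ := by linarith [h1.2.1, h2.2.2]
          have h8 : L ^ (j + 1) ≤ ((hi : ℝ) - lo) ^ (j + 1) := pow_le_pow_left₀ hL0.le hlt.le _
          have h9 : β * L ^ (j + 1) = δ := by
            rw [hδ, eq_div_iff hL0.ne', ← hβL]
            ring
          have h10 : 2 * δ ≤ β * (((j : ℝ) + 2) * ((hi : ℝ) - lo) ^ (j + 1)) := by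
            calc 2 * δ = 2 * (β * L ^ (j + 1)) := by rw [h9]
              _ ≤ ((j : ℝ) + 2) * (β * L ^ (j + 1)) := by
                  apply mul_le_mul_of_nonneg_right _ (by positivity)
                  have : (0 : ℝ) ≤ j := Nat.cast_nonneg j
                  linarith
              _ ≤ ((j : ℝ) + 2) * (β * ((hi : ℝ) - lo) ^ (j + 1)) := by
                  apply mul_le_mul_of_nonneg_left _ (by positivity)
                  exact mul_le_mul_of_nonneg_left h8 hβ.le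
              _ = _ := by ring
          linarith
        linarith
    have hBn : ‖∑ n ∈ B, f n‖ ≤ 3 * L := by
      rcases B.eq_empty_or_nonempty with h0 | hne
      · rw [h0, Finset.sum_empty, norm_zero]
        positivity
      · have hconv : ∀ x ∈ B, ∀ y ∈ B, ∀ w, x ≤ w → w ≤ y → w ∈ B := by
          intro x hx y hy w h1 h2
          rw [hmemB] at hx hy ⊢
          refine ⟨⟨by omega, by omega⟩, ?_, ?_⟩
          · linarith [hmono x w hx.1.1 h1, hx.2.1]
          · linarith [hmono w y (by omega) h2, hy.2.2]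
        have hI := ordc B hconv hne
        have h1 := (hmemB _).1 (Finset.min'_mem B hne)
        obtain ⟨lo, hlo⟩ : ∃ lo, lo = B.min' hne := ⟨_, rfl⟩
        obtain ⟨hi, hhi⟩ : ∃ hi, hi = B.max' hne := ⟨_, rfl⟩
        have hdiff : ∀ n : ℤ, (β * (((n + 1 : ℤ) : ℝ)) ^ (j + 2) + η * ((n + 1 : ℤ) : ℝ)) -
            (β * (n : ℝ) ^ (j + 2) + η * (n : ℝ)) = D n := by
          intro n
          rw [hD]
          push_cast
          ring
        have h2 := kul (fun n => β * (n : ℝ) ^ (j + 2) + η * (n : ℝ)) lo hi z δ hδ0 hδ2 (by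
          left
          intro n hn1 hn2
          rw [hdiff n]
          have h3 := hdiff (n + 1)
          rw [show n + 1 + 1 = n + 2 by ring] at h3
          rw [h3]
          have h4 : 1 ≤ lo := by rw [hlo]; exact h1.1.1
          exact hmono n (n + 1) (by omega) (by omega)) (by
          intro n hn1 hn2
          rw [hdiff n]
          have h3 : n ∈ B := by
            rw [hI, Finset.mem_Icc, ← hlo, ← hhi]
            exact ⟨hn1, hn2.le⟩
          rw [hmemB] at h3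
          exact ⟨h3.2.1, h3.2.2.le⟩)
        have h5 : ∑ n ∈ B, f n = ∑ n ∈ Finset.Icc lo hi, ee (β * (n : ℝ) ^ (j + 2) + η * (n : ℝ)) := by
          rw [hI, ← hlo, ← hhi, hf]
        rw [h5]
        refine h2.trans ?_
        rw [hδ]
        have : 3 / (1 / L) = 3 * L := by field_simp
        rw [this]
    calc ‖∑ n ∈ A, f n + ∑ n ∈ B, f n‖ ≤ ‖∑ n ∈ A, f n‖ + ‖∑ n ∈ B, f n‖ := norm_add_le _ _
      _ ≤ 2 * L + 3 * L := add_le_add hAn hBn
      _ = _ := by ring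
  have hfin : ‖∑ n ∈ Finset.Icc (1 : ℤ) (N : ℤ), f n‖ ≤ (2 ^ (j + 2) + 2) * (5 * L) := by
    rw [hsum]
    refine (norm_sum_le _ _).trans ?_
    calc ∑ z ∈ Z, ‖∑ n ∈ (Finset.Icc (1 : ℤ) (N : ℤ)).filter (fun n => ⌊D n + δ⌋ = z), f n‖
        ≤ ∑ _z ∈ Z, 5 * L := Finset.sum_le_sum fun z _ => hpart z
      _ = Z.card * (5 * L) := by rw [Finset.sum_const, nsmul_eq_mul]
      _ ≤ _ := mul_le_mul_of_nonneg_right hcardZ (by positivity)
  rw [hf] at hfin
  exact hfin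

/-- VBO -/
theorem vbo (k : ℕ) (hk : 2 ≤ k) (kul : KulStmt) : VboStmt k := by
  obtain ⟨j, rfl⟩ : ∃ j, k = j + 2 := ⟨k - 2, by omega⟩
  refine ⟨10 * (2 ^ (j + 2) + 2), by positivity, ?_⟩
  -- positive leading coefficient
  have key : ∀ (N : ℕ) (β η : ℝ), 1 ≤ N → 0 ≤ β → β * (N : ℝ) ^ (j + 2) ≤ N →
      ‖W (j + 2) N β η‖ ≤ 10 * (2 ^ (j + 2) + 2) * (N : ℝ) *
        (1 + β * (N : ℝ) ^ (j + 2)) ^ (-(1 / ((j + 2 : ℕ) : ℝ))) := by
    intro N β η hN hβ hT
    have hN0 : (0 : ℝ) < N := by exact_mod_cast hN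
    obtain ⟨T, hTd⟩ : ∃ T, T = β * (N : ℝ) ^ (j + 2) := ⟨_, rfl⟩
    have hT0 : 0 ≤ T := by rw [hTd]; positivity
    rw [← hTd]
    have hkne : (j + 2 : ℕ) ≠ 0 := by omega
    obtain ⟨R, hR⟩ : ∃ R, R = (1 + T) ^ (1 / ((j + 2 : ℕ) : ℝ)) := ⟨_, rfl⟩
    have hR0 : 0 < R := by rw [hR]; positivity
    have hRk : R ^ (j + 2) = 1 + T := by
      rw [hR, one_div]
      exact Real.rpow_inv_natCast_pow (by linarith) hkne
    have hneg : (1 + T) ^ (-(1 / ((j + 2 : ℕ) : ℝ))) = R⁻¹ := by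
      rw [Real.rpow_neg (by linarith), hR]
    rw [hneg]
    have hC : (0 : ℝ) < 2 ^ (j + 2) := by positivity
    by_cases hsmall : T ≤ 4
    · have hR5 : R ≤ 5 := by
        by_contra h
        push Not at h
        have h1 : (5 : ℝ) ^ (j + 2) < R ^ (j + 2) := pow_lt_pow_left₀ h (by norm_num) hkne
        have h2 : (5 : ℝ) ^ 1 ≤ 5 ^ (j + 2) := pow_le_pow_right₀ (by norm_num) (by omega)
        rw [hRk] at h1
        linarith
      have h1 := norm_W_le (j + 2) N β η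
      have h2 : (1 : ℝ) ≤ 5 * R⁻¹ := by
        rw [← div_eq_mul_inv, le_div_iff₀ hR0]
        linarith
      calc ‖W (j + 2) N β η‖ ≤ N := h1
        _ ≤ N * (5 * R⁻¹) := le_mul_of_one_le_right hN0.le h2
        _ = 5 * N * R⁻¹ := by ring
        _ ≤ 10 * (2 ^ (j + 2) + 2) * N * R⁻¹ := by
            apply mul_le_mul_of_nonneg_right _ (by positivity)
            apply mul_le_mul_of_nonneg_right _ hN0.le
            linarith
    · push Not at hsmall
      have hTN : T ≤ N := by rw [hTd]; exact hT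
      have hβ0 : 0 < β := by
        rcases hβ.lt_or_eq with h | h
        · exact h
        · exfalso
          rw [← h, zero_mul] at hTd
          linarith
      obtain ⟨L, hL⟩ : ∃ L, L = (1 / β) ^ (1 / ((j + 2 : ℕ) : ℝ)) := ⟨_, rfl⟩
      have hL0 : 0 < L := by rw [hL]; positivity
      have hLk : L ^ (j + 2) = 1 / β := by
        rw [hL, one_div ((j + 2 : ℕ) : ℝ)]
        exact Real.rpow_inv_natCast_pow (by positivity) hkne
      have hβL : β * L ^ (j + 2) = 1 := by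
        rw [hLk]
        field_simp
      have hL2 : 2 ≤ L := by
        by_contra h
        push Not at h
        have h1 : L ^ (j + 2) < 2 ^ (j + 2) := pow_lt_pow_left₀ h hL0.le hkne
        have h2 : (N : ℝ) ^ (j + 1) ≤ L ^ (j + 2) := by
          rw [hLk, le_div_iff₀ hβ0]
          have h3 : ((N : ℝ) ^ (j + 1) * β) * N ≤ 1 * N := by
            calc ((N : ℝ) ^ (j + 1) * β) * N = β * (N : ℝ) ^ (j + 2) := by ring
              _ ≤ N := hT
              _ = _ := (one_mul _).symm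
          exact le_of_mul_le_mul_right h3 hN0
        have h4 : (4 : ℝ) ≤ N := by linarith
        have h5 : (4 : ℝ) ^ (j + 1) ≤ (N : ℝ) ^ (j + 1) := pow_le_pow_left₀ (by norm_num) h4 _
        have h6 : (2 : ℝ) ^ (j + 2) ≤ 4 ^ (j + 1) := by
          have : (4 : ℝ) = 2 ^ 2 := by norm_num
          rw [this, ← pow_mul]
          exact pow_le_pow_right₀ (by norm_num) (by omega)
        linarith
      have h1 := vbo_main j kul (η := η) hN hβ0 hT hL2 hβL
      have h2 : L * R ≤ 2 * N := by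
        by_contra h
        push Not at h
        have h3 : (2 * (N : ℝ)) ^ (j + 2) < (L * R) ^ (j + 2) :=
          pow_lt_pow_left₀ h (by positivity) hkne
        rw [mul_pow L R, hLk, hRk] at h3
        have h4 : 1 / β * (1 + T) ≤ (2 * (N : ℝ)) ^ (j + 2) := by
          rw [one_div, inv_mul_le_iff₀ hβ0, mul_pow]
          have h5 : (2 : ℝ) ≤ 2 ^ (j + 2) := by
            have : (2 : ℝ) ^ 1 ≤ 2 ^ (j + 2) := pow_le_pow_right₀ (by norm_num) (by omega)
            linarith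
          calc 1 + T ≤ 2 * T := by linarith
            _ ≤ 2 ^ (j + 2) * T := by
                apply mul_le_mul_of_nonneg_right h5 hT0
            _ = _ := by rw [hTd]; ring
        linarith
      have h3 : L ≤ 2 * N * R⁻¹ := by
        rw [← div_eq_mul_inv, le_div_iff₀ hR0]
        exact h2
      calc ‖W (j + 2) N β η‖ ≤ (2 ^ (j + 2) + 2) * (5 * L) := h1
        _ ≤ (2 ^ (j + 2) + 2) * (5 * (2 * N * R⁻¹)) := by
            apply mul_le_mul_of_nonneg_left _ (by positivity)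
            linarith
        _ = _ := by ring
  intro N β η hN hT
  rcases le_or_gt 0 β with hβ | hβ
  · rw [abs_of_nonneg hβ] at hT ⊢
    exact key N β η hN hβ hT
  · rw [abs_of_neg hβ] at hT ⊢
    rw [← norm_W_neg]
    exact key N (-β) (-η) hN (by linarith) hT

end Pool.Agent.VM.H78
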